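import Pool.Agent.H44.KA.Tim

/-!
# The violation is almost nondecreasing and Lipschitz
-/

set_option autoImplicit false

namespace Pool.KA

open Finset Real
open Pool.Agent.H49.Ent Pool.Agent.H32.Dense Pool.STK

variable {m J : ℕ}

/-- The coarse rounding is a function of the fine rounding. -/
lemma gro_fl {x y : Fin m → ℝ} {i j : ℕ} (h : i ≤ j) (e : fl j x = fl j y) : fl i x = fl i y := by
  obtain ⟨k, rfl⟩ : ∃ k, j = i + k := ⟨j - i, by omega⟩
  have key : ∀ z : ℝ, ⌊(2 : ℝ) ^ i * z⌋ = ⌊(2 : ℝ) ^ (i + k) * z⌋ / ((2 ^ k : ℕ) : ℤ) := by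
    intro z
    rw [← Int.floor_div_natCast]
    congr 1
    push_cast
    rw [pow_add]
    field_simp
  funext l
  have e1 : ⌊(2 : ℝ) ^ (i + k) * x l⌋ = ⌊(2 : ℝ) ^ (i + k) * y l⌋ := congrFun e l
  show ⌊(2 : ℝ) ^ i * x l⌋ = ⌊(2 : ℝ) ^ i * y l⌋
  rw [key, key, e1]

theorem gro_thm : GROStmt := by
  intro m
  refine ⟨2 * (m * Real.log 5), by positivity, ?_⟩
  intro J F
  have hlog : 0 ≤ (m : ℝ) * Real.log 5 := by positivity
  have h1 : ∀ i j : ℕ, i ≤ j → CH F.p (F.X i) F.W ≤ CH F.p (F.X j) F.W ∧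
      CH F.p (F.X j) F.W ≤ CH F.p (F.X i) F.W + m * (((j : ℝ) - i) * Real.log 2) +
        m * Real.log 5 := by
    intro i j hij
    refine ⟨?_, ?_⟩
    · refine CH_mono_left F.isLaw.nonneg ?_
      intro ω ω' _ _ h
      exact gro_fl hij (Prod.ext_iff.mp h).1
    · obtain ⟨k, rfl⟩ : ∃ k, j = i + k := ⟨j - i, by omega⟩
      have h2 := tim_dig F.isLaw F.x i k F.W
      have e1 : ((i + k : ℕ) : ℝ) - i = k := by
        push_cast
        ring
      rw [e1]
      exact h2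
  have hD : CH F.p (F.D J) F.Z ≤ m * (J * Real.log 2) + 2 * (m * Real.log 5) := by
    have h2 := tim_dig F.isLaw F.d 0 J F.Z
    rw [Nat.zero_add] at h2
    have h3 := CH_le_vec F.isLaw.nonneg F.isLaw.sum_one (fun ω => fl 0 (F.d ω)) F.Z
      (fun _ => (2 : ℝ)) (by
        intro ω ω' _ _ _ k
        have a1 := F.dir ω k
        have a2 := F.dir ω' k
        have b1 : ∀ z : ℝ, |z| ≤ 1 → -1 ≤ ⌊z⌋ ∧ ⌊z⌋ ≤ 1 := by
          intro z hz
          rw [abs_le] at hz
          refine ⟨Int.le_floor.mpr (by push_cast; exact hz.1), ?_⟩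
          have c1 := Int.floor_le z
          have c2 : (⌊z⌋ : ℝ) ≤ (1 : ℤ) := by
            push_cast
            linarith [hz.2]
          exact_mod_cast c2
        obtain ⟨c1, c2⟩ := b1 _ a1
        obtain ⟨c3, c4⟩ := b1 _ a2
        have e1 : ∀ v, fl 0 (F.d v) k = ⌊F.d v k⌋ := by
          intro v
          show ⌊(2 : ℝ) ^ 0 * F.d v k⌋ = ⌊F.d v k⌋
          rw [pow_zero, one_mul]
        rw [e1, e1]
        have c5 : |⌊F.d ω k⌋ - ⌊F.d ω' k⌋| ≤ 2 := by
          rw [abs_le]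
          constructor <;> omega
        exact_mod_cast c5)
    have h4 : Ex F.p (fun _ => Real.log (2 * 2 + 1)) = Real.log 5 := by
      rw [Ex_const F.isLaw.sum_one]
      norm_num
    rw [h4] at h3
    have h5 : CH F.p (F.D J) F.Z = CH F.p (fun ω => fl J (F.d ω)) F.Z := rfl
    rw [h5]
    linarith
  refine ⟨fun i j hij => ⟨(h1 i j hij).1, by linarith [(h1 i j hij).2]⟩, fun i j hij => ⟨?_, ?_⟩,
    fun j => ?_⟩
  · obtain ⟨a1, a2⟩ := h1 i j hij
    unfold Fam.V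
    linarith
  · obtain ⟨a1, a2⟩ := h1 i j hij
    unfold Fam.V
    linarith
  · have a3 := CH_nonneg F.isLaw.nonneg (F.X j) F.W
    unfold Fam.V
    linarith

end Pool.KA
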