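import Pool.Agent.H9.KA.Stmts

/-!
# Families of lines with a random time: truncation of the time
-/

set_option autoImplicit false

namespace Pool.KA

open Finset Real
open Pool.Agent.H49.Ent Pool.Agent.H32.Dense Pool.STK

variable {Ω S U V : Type} [Fintype Ω]

/-- Few values of the time given its first digits. -/
lemma tim_card {p : Ω → ℝ} (hp : IsLaw p) (T : Ω → ℕ) (k : ℕ) (W : Ω → U) :
    CH p T (fun ω => (T ω / 2 ^ k, W ω)) ≤ k * Real.log 2 := by
  have h := CH_le_card hp.nonneg hp.sum_one T (fun ω => (T ω / 2 ^ k, W ω))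
    (fun z => Finset.Ico (z.1 * 2 ^ k) (z.1 * 2 ^ k + 2 ^ k)) (by
      intro ω _
      have h1 := Nat.div_add_mod (T ω) (2 ^ k)
      have h2 := Nat.mod_lt (T ω) (show 0 < 2 ^ k by positivity)
      rw [Finset.mem_Ico]
      show T ω / 2 ^ k * 2 ^ k ≤ T ω ∧ T ω < T ω / 2 ^ k * 2 ^ k + 2 ^ k
      rw [mul_comm (T ω / 2 ^ k) (2 ^ k)]
      constructor <;> omega)
  refine h.trans (le_of_eq ?_)
  have h3 : ∀ ω, Real.log ((Finset.Ico ((T ω / 2 ^ k, W ω).1 * 2 ^ k)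
      ((T ω / 2 ^ k, W ω).1 * 2 ^ k + 2 ^ k)).card : ℝ) = k * Real.log 2 := by
    intro ω
    rw [Nat.card_Ico, Nat.add_sub_cancel_left, Nat.cast_pow, Nat.cast_two, Real.log_pow]
  simp only [h3]
  exact Ex_const hp.sum_one _

/-- Few values of the time. -/
lemma tim_le {p : Ω → ℝ} (hp : IsLaw p) (T : Ω → ℕ) (x : ℕ) (hT : ∀ ω, T ω < 2 ^ x) (W : Ω → U) :
    CH p T W ≤ x * Real.log 2 := by
  have h := CH_le_card hp.nonneg hp.sum_one T W (fun _ => Finset.range (2 ^ x)) (by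
      intro ω _
      rw [Finset.mem_range]
      exact hT ω)
  refine h.trans (le_of_eq ?_)
  simp only [Finset.card_range, Nat.cast_pow, Nat.cast_two, Real.log_pow]
  exact Ex_const hp.sum_one _

/-- The deficit of the first digits. -/
lemma tim_tm {p : Ω → ℝ} (hp : IsLaw p) (T : Ω → ℕ) (k x : ℕ) {L : Ω → V} {e : ℝ}
    (hTm : ((x : ℝ) + k) * Real.log 2 - e ≤ CH p T L) :
    (x : ℝ) * Real.log 2 - e ≤ CH p (fun ω => T ω / 2 ^ k) L := by
  have h1 := CH_le_add hp.nonneg T (fun ω => T ω / 2 ^ k) L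
  have h2 := tim_card hp T k L
  nlinarith

/-- Conditioning on the first digits of the time or on the time, for a function of the line and
of the first digits. -/
lemma tim_tr {p : Ω → ℝ} (hp : IsLaw p) (T : Ω → ℕ) (k x : ℕ) (hT : ∀ ω, T ω < 2 ^ (x + k))
    {W : Ω → U} {A : Ω → S} {L : Ω → V} {e : ℝ}
    (hTm : ((x : ℝ) + k) * Real.log 2 - e ≤ CH p T L) (hW : Det p L W)
    (hA : Det p (fun ω => (T ω / 2 ^ k, L ω)) A) :
    CH p A (fun ω => (T ω / 2 ^ k, W ω)) ≤ CH p A (fun ω => (T ω, W ω)) + e := by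
  -- mutual information, both ways
  have h1 := CH_chain hp.nonneg A T (fun ω => (T ω / 2 ^ k, W ω))
  have h2 := CH_chain hp.nonneg T A (fun ω => (T ω / 2 ^ k, W ω))
  have h3 : CH p (fun ω => (A ω, T ω)) (fun ω => (T ω / 2 ^ k, W ω)) =
      CH p (fun ω => (T ω, A ω)) (fun ω => (T ω / 2 ^ k, W ω)) := by
    refine CH_congr hp.nonneg ?_ ?_ ?_ ?_
    · intro ω ω' _ _ h
      simp only [Prod.mk.injEq] at h ⊢
      tauto
    · intro ω ω' _ _ h
      simp only [Prod.mk.injEq] at h ⊢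
      tauto
    · intro ω ω' _ _ h
      exact h
    · intro ω ω' _ _ h
      exact h
  have h4 : CH p A (fun ω => (T ω, (T ω / 2 ^ k, W ω))) = CH p A (fun ω => (T ω, W ω)) := by
    refine CH_congr hp.nonneg ?_ ?_ ?_ ?_
    · intro ω ω' _ _ h
      simp only [Prod.mk.injEq] at h
      exact h.1
    · intro ω ω' _ _ h
      simp only [Prod.mk.injEq] at h
      exact h.1
    · intro ω ω' _ _ h
      simp only [Prod.mk.injEq] at h ⊢
      exact ⟨h.1, h.2.2⟩
    · intro ω ω' _ _ h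
      simp only [Prod.mk.injEq] at h ⊢
      exact ⟨h.1, by rw [h.1], h.2⟩
  have h5 := tim_card hp T k W
  have h6 : CH p T (fun ω => (T ω / 2 ^ k, L ω)) ≤ CH p T (fun ω => (A ω, (T ω / 2 ^ k, W ω))) := by
    refine CH_mono_cond hp.nonneg ?_
    intro ω ω' a b h
    have ha := hA ω ω' a b h
    simp only [Prod.mk.injEq] at h ⊢
    exact ⟨ha, h.1, hW ω ω' a b h.2⟩
  have h7 := CH_le_add hp.nonneg T (fun ω => T ω / 2 ^ k) L
  have h8 : CH p (fun ω => T ω / 2 ^ k) L ≤ x * Real.log 2 := by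
    refine tim_le hp _ x ?_ L
    intro ω
    rw [Nat.div_lt_iff_lt_mul (by positivity), ← pow_add]
    exact hT ω
  nlinarith

/-- Close vectors have close conditional entropies. -/
lemma tim_close {m : ℕ} {p : Ω → ℝ} (hp : IsLaw p) (A B : Ω → Fin m → ℤ) (W : Ω → U)
    (h : ∀ ω i, |A ω i - B ω i| ≤ 1) : CH p A W ≤ CH p B W + m * Real.log 5 := by
  have h1 := CH_le_add hp.nonneg A B W
  have h2 := CH_le_vec hp.nonneg hp.sum_one A (fun ω => (B ω, W ω)) (fun _ => (2 : ℝ)) (by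
    intro ω ω' _ _ hh k
    simp only [Prod.mk.injEq] at hh
    have a1 := h ω k
    have a2 := h ω' k
    rw [hh.1] at a1
    rw [abs_le] at a1 a2
    have a3 : |A ω k - A ω' k| ≤ 2 := by
      rw [abs_le]
      constructor <;> linarith
    exact_mod_cast a3)
  have h3 : Ex p (fun _ => Real.log (2 * 2 + 1)) = Real.log 5 := by
    rw [Ex_const hp.sum_one]
    norm_num
  rw [h3] at h2
  linarith

/-- The floors of close numbers. -/
lemma tim_floor {a b : ℝ} (h : |a - b| ≤ 1) : |⌊a⌋ - ⌊b⌋| ≤ 1 := by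
  rw [abs_le] at h ⊢
  have h1 := Int.floor_le a
  have h2 := Int.floor_le b
  have h3 := Int.lt_floor_add_one a
  have h4 := Int.lt_floor_add_one b
  have h5 : (⌊a⌋ : ℝ) < ⌊b⌋ + 2 := by linarith
  have h6 : (⌊b⌋ : ℝ) < ⌊a⌋ + 2 := by linarith
  have h7 : ⌊a⌋ < ⌊b⌋ + 2 := by exact_mod_cast h5
  have h8 : ⌊b⌋ < ⌊a⌋ + 2 := by exact_mod_cast h6
  constructor <;> omega

/-- Entropy of the digits `x` to `x + k`. -/
lemma tim_dig {m : ℕ} {p : Ω → ℝ} (hp : IsLaw p) (d : Ω → Fin m → ℝ) (x k : ℕ) (W : Ω → U) :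
    CH p (fun ω => fl (x + k) (d ω)) W ≤
      CH p (fun ω => fl x (d ω)) W + m * (k * Real.log 2) + m * Real.log 5 := by
  have h1 := CH_le_add hp.nonneg (fun ω => fl (x + k) (d ω)) (fun ω => fl x (d ω)) W
  have h2 := CH_le_vec hp.nonneg hp.sum_one (fun ω => fl (x + k) (d ω))
    (fun ω => (fl x (d ω), W ω)) (fun _ => (2 : ℝ) ^ k + 1) (by
      intro ω ω' _ _ hh i
      simp only [Prod.mk.injEq] at hh
      have a1 : ⌊(2 : ℝ) ^ x * d ω i⌋ = ⌊(2 : ℝ) ^ x * d ω' i⌋ := congrFun hh.1 i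
      have a2 := Int.abs_sub_lt_one_of_floor_eq_floor a1
      have a3 : |(2 : ℝ) ^ (x + k) * d ω i - 2 ^ (x + k) * d ω' i| ≤ 2 ^ k := by
        have a4 : (2 : ℝ) ^ (x + k) * d ω i - 2 ^ (x + k) * d ω' i =
            2 ^ k * (2 ^ x * d ω i - 2 ^ x * d ω' i) := by
          rw [pow_add]
          ring
        rw [a4, abs_mul, abs_of_pos (by positivity : (0 : ℝ) < 2 ^ k)]
        have a5 : (0 : ℝ) < 2 ^ k := by positivity
        nlinarith
      have b1 := Int.floor_le ((2 : ℝ) ^ (x + k) * d ω i)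
      have b2 := Int.floor_le ((2 : ℝ) ^ (x + k) * d ω' i)
      have b3 := Int.lt_floor_add_one ((2 : ℝ) ^ (x + k) * d ω i)
      have b4 := Int.lt_floor_add_one ((2 : ℝ) ^ (x + k) * d ω' i)
      have e1 : fl (x + k) (d ω) i = ⌊(2 : ℝ) ^ (x + k) * d ω i⌋ := rfl
      have e2 : fl (x + k) (d ω') i = ⌊(2 : ℝ) ^ (x + k) * d ω' i⌋ := rfl
      rw [e1, e2]
      push_cast
      rw [abs_le] at a3 ⊢
      constructor <;> linarith)
  have h3 : Ex p (fun _ => Real.log (2 * ((2 : ℝ) ^ k + 1) + 1)) =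
      Real.log (2 * ((2 : ℝ) ^ k + 1) + 1) := Ex_const hp.sum_one _
  rw [h3] at h2
  have h4 : Real.log (2 * ((2 : ℝ) ^ k + 1) + 1) ≤ k * Real.log 2 + Real.log 5 := by
    have c1 : (1 : ℝ) ≤ 2 ^ k := one_le_pow₀ (by norm_num)
    have c2 : Real.log (2 * ((2 : ℝ) ^ k + 1) + 1) ≤ Real.log (2 ^ k * 5) := by
      refine Real.log_le_log (by positivity) ?_
      linarith
    rw [Real.log_mul (by positivity) (by norm_num), Real.log_pow] at c2
    exact c2
  have h5 : (m : ℝ) * Real.log (2 * ((2 : ℝ) ^ k + 1) + 1) ≤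
      m * (k * Real.log 2 + Real.log 5) := mul_le_mul_of_nonneg_left h4 (Nat.cast_nonneg m)
  linarith

end Pool.KA
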